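import Pool.Agent.Lib.helper7.Descartes

namespace Pool.Agent.Results.MP_abf784_co.NotNice

/-- a finite oriented graph -/
structure OG where
  n : ℕ
  arc : Fin n → Fin n → Prop
  asymm : ∀ u v, arc u v → ¬ arc v u

/-- underlying undirected graph -/
def OG.und (D : OG) : SimpleGraph (Fin D.n) := SimpleGraph.fromRel D.arc

def IsTournament (D : OG) : Prop := ∀ u v, u ≠ v → D.arc u v ∨ D.arc v u

/-- `D` has a `k`-colouring of its arcs with no monochromatic copy of a member of `F` -/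
def Good (F : Set OG) (k : ℕ) (D : OG) : Prop :=
  ∃ col : Fin D.n → Fin D.n → Fin k, ∀ H ∈ F, ∀ i, ¬ ∃ φ : Fin H.n → Fin D.n,
    Function.Injective φ ∧ ∀ a b, H.arc a b → D.arc (φ a) (φ b) ∧ col (φ a) (φ b) = i

def P3 : OG := ⟨3, fun a b => a.val + 1 = b.val, fun _ _ h h' => by omega⟩
def K22 : OG := ⟨4, fun a b => a.val < 2 ∧ 2 ≤ b.val, fun _ _ h h' => by omega⟩

lemma good_iff (k : ℕ) (D : OG) : Good {P3, K22} k D ↔ ∃ col : Fin D.n → Fin D.n → Fin k,
    (∀ u v w, D.arc u v → D.arc v w → col u v ≠ col v w) ∧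
    ∀ u u' v v', u ≠ u' → v ≠ v' → D.arc u v → D.arc u v' → D.arc u' v → D.arc u' v' →
      ¬ (col u v' = col u v ∧ col u' v = col u v ∧ col u' v' = col u v) := by
  have irr : ∀ u v, D.arc u v → u ≠ v := by
    rintro u _ h rfl
    exact D.asymm _ _ h h
  refine exists_congr fun col => ⟨fun h => ⟨fun u v w a b e => ?_,
    fun u u' v v' n1 n2 a b c d e => ?_⟩, ?_⟩
  · refine h P3 (by simp) (col u v) ⟨(![u, v, w] : Fin 3 → _), ?_, ?_⟩
    · have h1 := irr _ _ a
      have h2 := irr _ _ b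
      have h3 : u ≠ w := by rintro rfl; exact D.asymm _ _ a b
      intro (x : Fin 3) (y : Fin 3) hxy
      clear * - h1 h2 h3 hxy
      fin_cases x <;> fin_cases y <;> simp_all
    · intro (x : Fin 3) (y : Fin 3) hxy
      fin_cases x <;> fin_cases y <;> simp_all [P3]
  · refine h K22 (by simp) (col u v) ⟨(![u, u', v, v'] : Fin 4 → _), ?_, ?_⟩
    · have h1 := irr _ _ a
      have h2 := irr _ _ b
      have h3 := irr _ _ c
      have h4 := irr _ _ d
      intro (x : Fin 4) (y : Fin 4) hxy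
      clear * - h1 h2 h3 h4 n1 n2 hxy
      fin_cases x <;> fin_cases y <;> simp_all
    · intro (x : Fin 4) (y : Fin 4) hxy
      fin_cases x <;> fin_cases y <;> simp_all [K22]
  · rintro ⟨h1, h2⟩ H (rfl | rfl) i ⟨φ, hφ, h⟩
    · have a := h (0 : Fin 3) (1 : Fin 3) (by simp [P3])
      have b := h (1 : Fin 3) (2 : Fin 3) (by simp [P3])
      exact h1 _ _ _ a.1 b.1 (a.2.trans b.2.symm)
    · have a := h (0 : Fin 4) (2 : Fin 4) (by simp [K22])
      have b := h (0 : Fin 4) (3 : Fin 4) (by simp [K22])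
      have c := h (1 : Fin 4) (2 : Fin 4) (by simp [K22])
      have d := h (1 : Fin 4) (3 : Fin 4) (by simp [K22])
      exact h2 _ _ _ _ (fun e => absurd (hφ e) (by decide)) (fun e => absurd (hφ e) (by decide))
        a.1 b.1 c.1 d.1 ⟨b.2.trans a.2.symm, c.2.trans a.2.symm, d.2.trans a.2.symm⟩

lemma upper (k : ℕ) (D : OG) (h : Good {P3, K22} k D) : D.und.Colorable (2 ^ k) := by
  classical
  obtain ⟨col, h1, -⟩ := (good_iff k D).1 h
  have key : ∀ u v, D.arc u v →
      (fun i => decide (∃ w, D.arc u w ∧ col u w = i)) ≠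
        fun i => decide (∃ w, D.arc v w ∧ col v w = i) := by
    intro u v a e
    have := congrFun e (col u v)
    rw [decide_eq_decide] at this
    obtain ⟨w, b, c⟩ := this.1 ⟨v, a, rfl⟩
    exact h1 u v w a b c.symm
  have c : D.und.Coloring (Fin k → Bool) := SimpleGraph.Coloring.mk
    (fun u i => decide (∃ w, D.arc u w ∧ col u w = i)) fun {u v} huv => by
      rcases (SimpleGraph.fromRel_adj _ _ _).1 huv with ⟨-, a | a⟩
      · exact key u v a
      · exact (key v u a).symm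
  simpa using c.colorable

lemma attain (k : ℕ) (hk : 0 < k) :
    ∃ D : OG, D.und.chromaticNumber = (2 ^ k : ℕ) ∧ Good {P3, K22} k D := by
  classical
  obtain ⟨n, G, h1, h2, h3⟩ := Pool.Agent.Lib.helper7.Descartes.exists_noC4_fin (2 ^ k - 1)
  have e : 2 ^ k - 1 + 1 = 2 ^ k := Nat.sub_add_cancel Nat.one_le_two_pow
  rw [e] at h2
  have c : G.Coloring (Fin k → Bool) := h2.toColoring (by simp)
  have ex : ∀ u v, ∃ i : Fin k, G.Adj u v → c u i ≠ c v i := by
    intro u v
    by_cases h : G.Adj u v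
    · obtain ⟨i, hi⟩ := Function.ne_iff.1 (c.valid h)
      exact ⟨i, fun _ => hi⟩
    · exact ⟨⟨0, hk⟩, fun h' => absurd h' h⟩
  choose f hf using ex
  let g : Fin n → Fin n → Fin k := fun u v => if u < v then f u v else f v u
  have gs : ∀ u v, g u v = g v u := by
    intro u v
    rcases lt_trichotomy u v with h | rfl | h
    · simp [g, h, h.not_gt]
    · rfl
    · simp [g, h, h.not_gt]
  have hg : ∀ u v, G.Adj u v → c u (g u v) ≠ c v (g u v) := by
    intro u v h
    by_cases hl : u < v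
    · simpa [g, hl] using hf u v h
    · simpa [g, hl] using (hf v u h.symm).symm
  let D : OG := ⟨n, fun u v => G.Adj u v ∧ c u (g u v) = false ∧ c v (g u v) = true, by
    rintro u v ⟨-, a, -⟩ ⟨-, -, b⟩
    rw [gs, b] at a
    exact absurd a (by decide)⟩
  have hD : D.und = G := by
    ext u v
    rw [OG.und, SimpleGraph.fromRel_adj]
    constructor
    · rintro ⟨-, a | a⟩
      · exact a.1
      · exact a.1.symm
    · intro h
      refine ⟨h.ne, ?_⟩
      have := hg u v h
      cases e1 : c u (g u v)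
      · exact Or.inl ⟨h, e1, by simpa [e1] using this⟩
      · refine Or.inr ⟨h.symm, ?_, ?_⟩
        · rw [gs]; simpa [e1] using this
        · rw [gs]; exact e1
  refine ⟨D, ?_, (good_iff k D).2 ⟨g, ?_, ?_⟩⟩
  · rw [hD, ← e]
    have h2' : G.Colorable (2 ^ k - 1 + 1) := by rwa [e]
    apply le_antisymm h2'.chromaticNumber_le
    by_contra hc
    push_cast at hc
    exact h3 (SimpleGraph.chromaticNumber_le_iff_colorable.1 (ENat.lt_add_one_iff (by simp) |>.1
      (not_le.1 hc)))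
  · rintro u v w ⟨-, -, a⟩ ⟨-, b, -⟩ e'
    rw [e', b] at a
    exact absurd a (by decide)
  · intro u u' v v' n1 n2 a b c' d _
    rcases h1 u u' v v' a.1 b.1 c'.1 d.1 with h | h
    · exact n1 h
    · exact n2 h

lemma tour (k : ℕ) (T : OG) (hT : IsTournament T) (h : Good {P3, K22} k T) :
    T.n ≤ (2 * k + 1) + (2 * k + 1) * (2 * k + 1) * (k * 2) := by
  classical
  obtain ⟨col, -, h2⟩ := (good_iff k T).1 h
  by_contra hn
  push Not at hn
  set a := 2 * k + 1 with ha
  let A : Fin a → Fin T.n := fun x => ⟨x, by omega⟩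
  let B : Fin (a * a * (k * 2) + 1) → Fin T.n := fun x => ⟨a + x, by omega⟩
  let cl : Fin T.n → Fin T.n → Fin k × Bool := fun u v =>
    if T.arc u v then (col u v, true) else (col v u, false)
  have p1 : ∀ y, ∃ x : Fin a × Fin a, x.1 ≠ x.2 ∧ cl (A x.1) (B y) = cl (A x.2) (B y) := by
    intro y
    obtain ⟨x, x', h1, h2⟩ := Fintype.exists_ne_map_eq_of_card_lt (fun x => cl (A x) (B y))
      (by simp; omega)
    exact ⟨(x, x'), h1, h2⟩
  choose s hs hs' using p1
  obtain ⟨y, y', n2, e⟩ := Fintype.exists_ne_map_eq_of_card_lt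
    (fun y => (s y, cl (A (s y).1) (B y))) (by simp)
  obtain ⟨e1, e2⟩ := Prod.mk.inj e
  have e3 := hs' y
  have e4 := hs' y'
  rw [← e1] at e2 e4
  have n1 : A (s y).1 ≠ A (s y).2 := fun h => hs y (Fin.ext (by simpa [A] using h))
  have n2' : B y ≠ B y' := fun h => n2 (Fin.ext (by simpa [B] using h))
  have nab : ∀ x z, A x ≠ B z := fun x z h => by
    have := congrArg Fin.val h
    simp only [A, B] at this
    omega
  have rev : ∀ x z, ¬ T.arc (A x) (B z) → T.arc (B z) (A x) := fun x z h =>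
    (hT _ _ (nab x z)).resolve_left h
  have r1 := rev (s y).1 y
  have r2 := rev (s y).1 y'
  have r3 := rev (s y).2 y
  have r4 := rev (s y).2 y'
  generalize A (s y).1 = u at *
  generalize A (s y).2 = u' at *
  generalize B y = v at *
  generalize B y' = v' at *
  simp only [cl] at e2 e3 e4
  by_cases c1 : T.arc u v <;> by_cases c2 : T.arc u v' <;> by_cases c3 : T.arc u' v <;>
    by_cases c4 : T.arc u' v' <;> simp [c1, c2, c3, c4] at e2 e3 e4
  · exact h2 u u' v v' n1 n2' c1 c2 c3 c4 ⟨e2.symm, e3.symm, e4.symm.trans e2.symm⟩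
  · exact h2 v v' u u' n2' n1 (r1 c1) (r3 c3) (r2 c2) (r4 c4)
      ⟨e3.symm, e2.symm, e4.symm.trans e2.symm⟩

lemma cube (k : ℕ) (hk : 20 ≤ k) : 54 * k ^ 3 < 2 ^ k := by
  induction k, hk using Nat.le_induction with
  | base => norm_num
  | succ k hk ih =>
    have : (k + 1) ^ 3 ≤ 2 * k ^ 3 := by nlinarith [Nat.mul_le_mul hk (Nat.mul_le_mul hk hk), Nat.mul_le_mul_right (k * k) hk, Nat.mul_le_mul_right k (Nat.mul_le_mul hk hk)]
    rw [pow_succ 2]
    omega

theorem result : ∃ F : Set OG, F.Finite ∧ (∃ H ∈ F, H.und.IsAcyclic) ∧ ∀ k ≥ 20, ∃ p q : ℕ,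
    IsGreatest {n : ℕ | ∃ T : OG, IsTournament T ∧ T.n = n ∧ Good F k T} p ∧
    IsGreatest {c : ℕ | ∃ D : OG, D.und.chromaticNumber = c ∧ Good F k D} q ∧ p < q := by
  refine ⟨{P3, K22}, by simp, ⟨P3, by simp, ?_⟩, fun k hk => ?_⟩
  · have e : P3.und = SimpleGraph.fromRel fun a b : Fin 3 => a.val + 1 = b.val := rfl
    rw [e]
    refine (SimpleGraph.isTree_iff_connected_and_card.2 ⟨by decide, ?_⟩).isAcyclic
    rw [Nat.card_eq_fintype_card, Nat.card_eq_fintype_card]
    decide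
  · set S := {n : ℕ | ∃ T : OG, IsTournament T ∧ T.n = n ∧ Good {P3, K22} k T}
    have hb : ∀ n ∈ S, n ≤ (2 * k + 1) + (2 * k + 1) * (2 * k + 1) * (k * 2) := by
      rintro n ⟨T, h1, rfl, h2⟩
      exact tour k T h1 h2
    have hne : S.Nonempty := ⟨0, ⟨0, fun _ _ => False, fun _ _ h => h.elim⟩, fun u => u.elim0, rfl,
      (good_iff k _).2 ⟨fun u => u.elim0, fun u => u.elim0, fun u => u.elim0⟩⟩
    have hm := Nat.sSup_mem hne ⟨_, hb⟩
    refine ⟨sSup S, 2 ^ k, ⟨hm, fun n hn => le_csSup ⟨_, hb⟩ hn⟩, ⟨attain k (by omega), ?_⟩, ?_⟩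
    · rintro c ⟨D, h1, h2⟩
      have := (upper k D h2).chromaticNumber_le
      rw [h1] at this
      exact_mod_cast this
    · have := hb _ hm
      have h2 := cube k hk
      nlinarith [Nat.mul_le_mul hk (Nat.mul_le_mul hk hk), Nat.mul_le_mul_right (k * k) hk, Nat.mul_le_mul_right k (Nat.mul_le_mul hk hk)]

end Pool.Agent.Results.MP_abf784_co.NotNice
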